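import Mathlib
import Pool.Agent.H744R2.KZ.Props

open scoped ComplexOrder InnerProductSpace ComplexConjugate Topology
open Finset Filter

noncomputable section

namespace H744R2.KZ

open H759R2.Kad

universe u

namespace EDensAux

variable {H : Type u} [NormedAddCommGroup H] [InnerProductSpace ℂ H] [CompleteSpace H]

/-- A projection onto a subspace invariant under `T` and its adjoint commutes with `T`. -/
theorem proj_comm {K : Type u} [NormedAddCommGroup K] [InnerProductSpace ℂ K] [CompleteSpace K]
    (V : Submodule ℂ K) [V.HasOrthogonalProjection] (T : K →L[ℂ] K)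
    (h1 : ∀ x ∈ V, T x ∈ V) (h2 : ∀ x ∈ V, star T x ∈ V) (x : K) :
    V.starProjection (T x) = T (V.starProjection x) := by
  have hx : x = V.starProjection x + (x - V.starProjection x) := by abel
  have h3 : T (x - V.starProjection x) ∈ Vᗮ := by
    rw [Submodule.mem_orthogonal]
    intro u hu
    have h4 : x - V.starProjection x ∈ Vᗮ := V.sub_starProjection_mem_orthogonal x
    rw [Submodule.mem_orthogonal] at h4
    have h5 := h4 (star T u) (h2 u hu)
    rwa [ContinuousLinearMap.star_eq_adjoint, ContinuousLinearMap.adjoint_inner_left] at h5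
  have h6 : T (V.starProjection x) ∈ V := h1 _ (V.starProjection_apply_mem x)
  conv_lhs => rw [hx, map_add, map_add]
  rw [V.starProjection_eq_self_iff.mpr h6, (V.starProjection_apply_eq_zero_iff).mpr h3, add_zero]

end EDensAux

theorem prove_E_dens : E_dens.{u} := by
  intro A _ H _ _ _ π m hm n ξ ε hε
  classical
  set K := HH (Fin n) H with hK
  let L : A →ₗ[ℂ] K :=
    { toFun := fun a => WithLp.toLp 2 (fun i => π a (ξ i))
      map_add' := by
        intro a b
        ext i
        simp only [map_add, add_apply]
        rfl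
      map_smul' := by
        intro c a
        ext i
        simp only [map_smul, smul_apply, RingHom.id_apply]
        rfl }
  have hL : ∀ a i, L a i = π a (ξ i) := fun a i => rfl
  let V : Submodule ℂ K := (LinearMap.range L).topologicalClosure
  have hVc : IsClosed (V : Set K) := Submodule.isClosed_topologicalClosure _
  have : CompleteSpace V := hVc.completeSpace_coe
  have : V.HasOrthogonalProjection := inferInstance
  have hdg : ∀ a x, dg n (π a) (L x) = L (a * x) := by
    intro a x
    ext i
    rw [dg_apply, hL, hL, map_mul]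
    rfl
  have hinv : ∀ a, ∀ x ∈ V, dg n (π a) x ∈ V := by
    intro a x hx
    have h1 : Set.MapsTo (dg n (π a)) (LinearMap.range L : Set K) (LinearMap.range L : Set K) := by
      rintro _ ⟨y, rfl⟩
      exact ⟨a * y, (hdg a y).symm⟩
    have h2 := h1.closure (dg n (π a)).continuous
    exact h2 hx
  have hstar : ∀ a, star (dg n (π a)) = dg n (π (star a)) := by
    intro a
    rw [dg, opMat_star, dg]
    congr 1
    funext i j
    by_cases h : i = j
    · subst h
      simp [map_star]
    · simp [h, Ne.symm h]
  have hcomm : ∀ a x, V.starProjection (dg n (π a) x) = dg n (π a) (V.starProjection x) := by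
    intro a x
    refine EDensAux.proj_comm V _ (hinv a) ?_ x
    intro y hy
    rw [hstar]
    exact hinv _ y hy
  -- entries of the projection
  let Pe : Fin n → Fin n → (H →L[ℂ] H) := fun i j =>
    (PiLp.proj 2 (fun _ : Fin n => H) i) ∘L V.starProjection ∘L
      (LinearMap.mkContinuous (inj j) 1 (by
        intro u
        have : ‖(inj j u : HH (Fin n) H)‖ = ‖u‖ := by
          simp [inj]
        rw [this, one_mul]))
  have hPe : ∀ i j u, Pe i j u = V.starProjection (inj j u) i := fun i j u => rfl
  have hPe2 : ∀ i j, Pe i j ∈ Set.centralizer (Set.range π) := by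
    intro i j
    rw [Set.mem_centralizer_iff]
    rintro _ ⟨a, rfl⟩
    ext u
    change π a (Pe i j u) = Pe i j (π a u)
    rw [hPe, hPe]
    have h1 : (inj j (π a u) : K) = dg n (π a) (inj j u) := by
      ext k
      rw [dg_apply, inj_apply, inj_apply]
      split_ifs <;> simp
    rw [h1, hcomm, dg_apply]
  have hPm : ∀ i j u, Pe i j (m u) = m (Pe i j u) := by
    intro i j u
    have h1 := (Set.mem_centralizer_iff.mp hm) _ (hPe2 i j)
    exact congrArg (fun T : H →L[ℂ] H => T u) h1
  have hPs : ∀ v : K, ∀ i, V.starProjection v i = ∑ j, Pe i j (v j) := by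
    intro v i
    conv_lhs => rw [← sum_inj v, map_sum]
    rw [WithLp.ofLp_sum, Finset.sum_apply]
    rfl
  have hcm : ∀ v : K, V.starProjection (dg n m v) = dg n m (V.starProjection v) := by
    intro v
    ext i
    rw [hPs, dg_apply, hPs, map_sum]
    refine Finset.sum_congr rfl fun j _ => ?_
    rw [dg_apply, hPm]
  have hxi : L 1 ∈ V := Submodule.le_topologicalClosure _ ⟨1, rfl⟩
  have hmem : dg n m (L 1) ∈ V := by
    rw [← V.starProjection_eq_self_iff.mpr hxi, ← hcm]
    exact V.starProjection_apply_mem _
  have hmem2 : dg n m (L 1) ∈ closure (LinearMap.range L : Set K) := hmem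
  obtain ⟨y, ⟨a, rfl⟩, hy⟩ := Metric.mem_closure_iff.mp hmem2 ε hε
  refine ⟨a, fun i => ?_⟩
  have h1 : (π a - m) (ξ i) = (L a - dg n m (L 1)) i := by
    rw [PiLp.sub_apply, dg_apply, hL, hL, map_one]
    rfl
  rw [h1]
  refine (PiLp.norm_apply_le _ i).trans ?_
  rw [← dist_eq_norm, dist_comm]
  exact hy.le

end H744R2.KZ
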